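import Pool.Agent.H76.LN.Defs
import Pool.Agent.H65.NT.Ring
import Pool.Agent.H98.FJ.P.Ext0

/-!
# H54 PS, Red: from the special linear group modulo its centre to the projective and the general linear group
-/

set_option autoImplicit false

namespace Pool.Agent.H54.PS

open Pool.Agent.H98.FJ Pool.Agent.H10.RA Pool.Agent.H76.LN

variable {F : Type} [Field F] {n : ℕ}

/-- the units modulo `n`-th powers -/
abbrev Up (n : ℕ) (F : Type) [Field F] : Type := Fˣ ⧸ (powMonoidHom n : Fˣ →* Fˣ).range

/-- the determinant modulo `n`-th powers -/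
def dt (n : ℕ) (F : Type) [Field F] : PG n F →* Up n F :=
  QuotientGroup.lift _ ((QuotientGroup.mk' (powMonoidHom n : Fˣ →* Fˣ).range).comp Matrix.GeneralLinearGroup.det) (by
    intro g hg
    obtain ⟨c, hc⟩ := mem_center_iff.1 hg
    rw [MonoidHom.mem_ker, MonoidHom.comp_apply, QuotientGroup.mk'_apply, QuotientGroup.eq_one_iff]
    have hdet : (Matrix.GeneralLinearGroup.det g : Fˣ).val = c ^ n := by
      show g.val.det = c ^ n
      rw [hc, Matrix.det_smul, Matrix.det_one, Fintype.card_fin, mul_one]
    rcases Nat.eq_zero_or_pos n with hn | hn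
    · subst hn
      refine ⟨1, Units.ext ?_⟩
      rw [hdet]
      simp
    · have hc0 : c ≠ 0 := by
        rintro rfl
        exact (Matrix.GeneralLinearGroup.det g : Fˣ).ne_zero (by rw [hdet, zero_pow hn.ne'])
      refine ⟨Units.mk0 c hc0, Units.ext ?_⟩
      rw [hdet]
      rfl)

theorem dt_pr (g : GL (Fin n) F) :
    dt n F (pr n F g) = QuotientGroup.mk' (powMonoidHom n : Fˣ →* Fˣ).range (Matrix.GeneralLinearGroup.det g) := rfl

theorem up_pow (x : Up n F) : x ^ n = 1 := by
  obtain ⟨u, rfl⟩ := QuotientGroup.mk'_surjective _ x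
  rw [← map_pow, QuotientGroup.mk'_apply, QuotientGroup.eq_one_iff]
  exact ⟨u, rfl⟩

/-- the kernel of the determinant is the image of the special linear group -/
theorem dt_ker : (dt n F).ker = (psg n F).range := by
  ext x
  constructor
  · intro hx
    obtain ⟨g, rfl⟩ := pr_surj x
    rw [MonoidHom.mem_ker, dt_pr, QuotientGroup.mk'_apply, QuotientGroup.eq_one_iff] at hx
    obtain ⟨u, hu⟩ := hx
    have hu' : u ^ n = Matrix.GeneralLinearGroup.det g := hu
    have hdet : g.val.det = u.val ^ n := by
      have := congrArg Units.val hu'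
      rw [Units.val_pow_eq_pow_val] at this
      exact this.symm
    have hd : (((u⁻¹).val • g.val : Mn n F)).det = 1 := by
      rw [Matrix.det_smul, Fintype.card_fin, hdet, ← mul_pow, Units.inv_mul, one_pow]
    obtain ⟨t, ht⟩ : ∃ t : SLn n F, t.val = (u⁻¹).val • g.val := ⟨⟨_, hd⟩, rfl⟩
    refine ⟨ps n F t, ?_⟩
    rw [psg_ps, pr_eq]
    refine ⟨u.val, ?_⟩
    have h1 : g.val = u.val • (sg n F t).val := by
      rw [sg_val, ht, smul_smul, Units.mul_inv, one_smul]
    rw [Units.val_mul, h1, Matrix.mul_smul, ← Units.val_mul, inv_mul_cancel, Units.val_one]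
  · rintro ⟨y, rfl⟩
    obtain ⟨g, rfl⟩ := ps_surj y
    rw [MonoidHom.mem_ker, psg_ps, dt_pr]
    have : Matrix.GeneralLinearGroup.det (sg n F g) = 1 := Units.ext (sg_det g)
    rw [this, map_one]

/-- from the special linear group to the projective linear group -/
theorem pg_of_ps {C : (G : Type) → [Group G] → Prop} (hC : Inherits C) (hE : Extension C)
    (hS : ∀ (G : Type) [Group G], Group.IsSolvable G → C G) (F : Type) [Field F] (n : ℕ) (h : C (PS n F)) : C (PG n F) := by
  rcases Nat.eq_zero_or_pos n with hn | hn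
  · subst hn
    have h1 : Finite (GL (Fin 0) F) := by
      have : Subsingleton (GL (Fin 0) F) := ⟨fun a b => Units.ext (Subsingleton.elim _ _)⟩
      infer_instance
    exact hC.fin _ (Finite.of_surjective _ (pr_surj (n := 0) (F := F)))
  have hD : C (dt n F).range := hS _ (Group.isSolvable_of_comm fun a b => mul_comm a b)
  refine hE (PG n F) (dt n F).range (dt n F).rangeRestrict (dt n F).rangeRestrict_surjective hD fun V hV => ?_
  obtain ⟨v, hv⟩ := hV
  -- `V` is finite
  have hpow : ∀ x : V, x ^ n = 1 := fun x => Subtype.ext (Subtype.ext (up_pow x.1.1))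
  have hvf : Finite (Subgroup.zpowers v) := by
    have : IsOfFinOrder v := isOfFinOrder_iff_pow_eq_one.2 ⟨n, hn, hpow v⟩
    exact finite_zpowers.2 this
  have hVf : Finite V := by
    have h1 : Finite (V ⧸ Subgroup.zpowers v) := Subgroup.finite_quotient_of_finiteIndex
    exact Finite.of_subgroup_quotient (Subgroup.zpowers v)
  let r : V.comap (dt n F).rangeRestrict →* V := (dt n F).rangeRestrict.subgroupComap V
  have hfi : r.ker.FiniteIndex := by
    have : Finite (V.comap (dt n F).rangeRestrict ⧸ r.ker) :=
      Finite.of_injective _ (QuotientGroup.kerLift_injective r)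
    exact Subgroup.finiteIndex_of_finite_quotient
  refine hC.index _ r.ker hfi ?_
  -- the kernel embeds in the kernel of `dt`
  have hker : C (dt n F).ker := by
    rw [dt_ker]
    exact hC.iso _ _ (MonoidHom.ofInjective psg_inj) h
  let f : r.ker →* (dt n F).ker :=
    { toFun := fun x => ⟨x.1.1, by
        have h1 : r x.1 = 1 := x.2
        have h2 : (dt n F).rangeRestrict x.1.1 = 1 := congrArg Subtype.val h1
        exact congrArg Subtype.val h2⟩
      map_one' := rfl
      map_mul' := fun _ _ => rfl }
  refine hC.of_injective f ?_ hker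
  intro x y hxy
  exact Subtype.ext (Subtype.ext (congrArg (fun z : (dt n F).ker => z.1) hxy))

/-- from the projective to the general linear group -/
theorem gl_of_pg {C : (G : Type) → [Group G] → Prop} (hC : Inherits C) (hE : Extension C)
    (hS : ∀ (G : Type) [Group G], Group.IsSolvable G → C G) (F : Type) [Field F] (n : ℕ) (h : C (PG n F)) :
    C (GL (Fin n) F) := by
  refine Pool.Agent.H65.NT.solv_ext hC hE hS (pr n F) (Group.isSolvable_of_comm fun a b => ?_) h
  apply Subtype.ext
  have h1 : (a : GL (Fin n) F) ∈ Subgroup.center (GL (Fin n) F) := (QuotientGroup.eq_one_iff _).1 a.2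
  exact (Subgroup.mem_center_iff.1 h1 b.1).symm

/-- from the special linear group to the general linear group -/
theorem gl_of_ps {C : (G : Type) → [Group G] → Prop} (hC : Inherits C) (hE : Extension C)
    (hS : ∀ (G : Type) [Group G], Group.IsSolvable G → C G) (F : Type) [Field F] (n : ℕ) (h : C (PS n F)) :
    C (GL (Fin n) F) := gl_of_pg hC hE hS F n (pg_of_ps hC hE hS F n h)

/-- from all fields to all commutative rings -/
theorem gl_all_of_pg {C : (G : Type) → [Group G] → Prop} (hC : Inherits C) (hE : Extension C)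
    (hS : ∀ (G : Type) [Group G], Group.IsSolvable G → C G) (h : ∀ (F : Type) [Field F] (n : ℕ), C (PG n F)) (A : Type)
    [CommRing A] (n : ℕ) : C (GL (Fin n) A) :=
  Pool.Agent.H65.NT.gl_ring hC hE hS (fun F _ => gl_of_pg hC hE hS F n (h F n)) A

end Pool.Agent.H54.PS
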